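import Pool.Agent.Helper33.DP3.Sheet

/-!
Row A3 of the sheet DP3 (MP_fcb106_co): the case of two smaller graphs.
-/

set_option autoImplicit false

namespace Pool.Agent.Helper72.PL

open Finset Pool.Agent.Helper33.DP Pool.Agent.Helper33.DP3

theorem core_card {w : ℕ} {G : Gr w} (hG : IsCore G) : w ≤ G.card := by
  obtain ⟨σ, hσ⟩ := hG.ex
  have h1 : (univ.image (fun i : Fin w => (i, σ i))).card = w := by
    rw [card_image_of_injective _ (fun i j h => (Prod.mk.inj h).1), card_univ, Fintype.card_fin]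
  have h2 : univ.image (fun i : Fin w => (i, σ i)) ⊆ G := by
    intro e he
    rw [mem_image] at he
    obtain ⟨i, -, rfl⟩ := he
    exact hσ i
  calc w = _ := h1.symm
    _ ≤ G.card := card_le_card h2

theorem bb0 {w : ℕ} : BB (fun _ : Fin w => (0 : ℝ)) := by
  refine ⟨by simp, fun S => ?_⟩
  have h1 : (S.card : ℝ) ≤ w := by
    have := card_le_univ S
    rw [Fintype.card_fin] at this
    exact_mod_cast this
  simp only [sum_const_zero]
  exact mul_nonneg (by positivity) (by linarith)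

/-- a good state from a potential bound: no error -/
theorem good3_of_bdd {w : ℕ} {G : Gr w} {μ : Fin w → Fin w → ℕ} {β : ℝ}
    (h0 : ∀ a b, (a, b) ∉ G → μ a b = 0) (h : Bdd G (fun a b => (μ a b : ℝ)) β)
    (hβ : β ≤ 1 / gam w G.card) : Good3 G μ := by
  refine ⟨h0, fun a b => (μ a b : ℝ), fun _ _ => 0, fun _ _ => 0, ?_, ?_, ?_, ?_, ?_⟩
  · intro a b hab
    simp [h0 a b hab]
  · intro a b
    simp
  · exact ⟨h.pos, fun σ hσ => (h.le σ hσ).trans hβ⟩
  · exact fun _ => bb0
  · exact fun _ => bb0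

/-- A3: the case of two smaller graphs. -/
theorem A3 (hT1 : ST_T1) (hR : ST_RND3) (hB : ST_BDR) (hGB : ST_GB3) : ST_A3 := by
  intro w G G₁ G₂ μ hw hG h1 h2 hc hgood hlt1 hlt2
  obtain ⟨-, hbdd⟩ := hGB w G μ hw hG hgood
  have hw1 : (1 : ℝ) ≤ w := by exact_mod_cast hw
  have hw0 : (0 : ℝ) ≤ w := by linarith
  have hm : (w : ℝ) ≤ G.card := by exact_mod_cast core_card hG
  obtain ⟨g, hg⟩ : ∃ g : ℝ, g = gam w G.card - 2 * (w - 1) := ⟨_, rfl⟩
  rw [← hg] at hbdd
  have hgw : (w : ℝ) + 2 ≤ g := by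
    rw [hg]
    unfold gam
    nlinarith
  have num : ∀ m : ℕ, w ≤ m → m < G.card →
      1 / (g - 1 / 2) / (1 - w * (1 / (g - 1 / 2))) ≤ 1 / gam w m := by
    intro m hwm hmG
    have a1 : (m : ℝ) + 1 ≤ G.card := by exact_mod_cast hmG
    have a2 : (w : ℝ) ≤ m := by exact_mod_cast hwm
    have a3 : 0 < gam w m := by
      unfold gam
      have : (0 : ℝ) < m := by linarith
      have : (0 : ℝ) < w := by linarith
      positivity
    have a4 : 1 / (g - 1 / 2) / (1 - w * (1 / (g - 1 / 2))) = 1 / (g - 1 / 2 - w) := by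
      have h5 : g - 1 / 2 ≠ 0 := by linarith
      have h6 : g - 1 / 2 - w ≠ 0 := by linarith
      have h7 : 1 - w * (1 / (g - 1 / 2)) = (g - 1 / 2 - w) / (g - 1 / 2) := by
        rw [sub_div _ (w : ℝ), div_self h5, mul_one_div]
      rw [h7, div_div, mul_div_cancel₀ _ h5]
    rw [a4]
    refine one_div_le_one_div_of_le a3 ?_
    rw [hg]
    unfold gam
    nlinarith
  have hβ0 : 0 < 1 / (g - 1 / 2) := by
    have : 0 < g - 1 / 2 := by linarith
    positivity
  have hββ : 1 / g < 1 / (g - 1 / 2) := one_div_lt_one_div_of_lt (by linarith) (by linarith)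
  have hwβ : (w : ℝ) * (1 / (g - 1 / 2)) < 1 := by
    rw [mul_one_div, div_lt_one (by linarith)]
    linarith
  obtain ⟨z, hz0, hzs, hzsum, hz1, hz2⟩ :=
    hT1 w G G₁ G₂ (fun a b => (μ a b : ℝ)) (1 / g) (1 / (g - 1 / 2)) hw h1 h2 hc hbdd hββ
  obtain ⟨z', hroute, herr, -⟩ := hR w G₁ G₂ μ z hz0 hzs hzsum
  refine ⟨z', hroute, ?_, ?_⟩
  · have b1 := hB w G₁ (fun a x => ∑ b, z a x b) (fun a x => ∑ b, (z' a x b : ℝ))
      (1 / (g - 1 / 2)) w h1 hw0 hβ0 hwβ hz1 (fun a x _ => by
        have h3 : ∑ b, z a x b - ∑ b, (z' a x b : ℝ) ≤ w := by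
          rw [← Finset.sum_sub_distrib]
          calc ∑ b, (z a x b - (z' a x b : ℝ)) ≤ ∑ _b : Fin w, (1 : ℝ) := by
                refine Finset.sum_le_sum fun b _ => ?_
                have := abs_le.1 (herr a x b)
                linarith [this.1]
            _ = w := by simp
        linarith)
    refine good3_of_bdd (fun a x hax => ?_) ?_ (num G₁.card (core_card h1) hlt1)
    · refine Finset.sum_eq_zero fun b _ => ?_
      by_contra hne
      exact hax (hroute.supp a x b hne).1
    · have e : (fun a x => ((∑ b, z' a x b : ℕ) : ℝ)) = fun a x => ∑ b, (z' a x b : ℝ) := by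
        funext a x; push_cast; rfl
      rw [e]; exact b1
  · have b2 := hB w G₂ (fun x b => ∑ a, z a x b) (fun x b => ∑ a, (z' a x b : ℝ))
      (1 / (g - 1 / 2)) w h2 hw0 hβ0 hwβ hz2 (fun x b _ => by
        have h3 : ∑ a, z a x b - ∑ a, (z' a x b : ℝ) ≤ w := by
          rw [← Finset.sum_sub_distrib]
          calc ∑ a, (z a x b - (z' a x b : ℝ)) ≤ ∑ _a : Fin w, (1 : ℝ) := by
                refine Finset.sum_le_sum fun a _ => ?_
                have := abs_le.1 (herr a x b)
                linarith [this.1]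
            _ = w := by simp
        linarith)
    refine good3_of_bdd (fun x b hxb => ?_) ?_ (num G₂.card (core_card h2) hlt2)
    · refine Finset.sum_eq_zero fun a _ => ?_
      by_contra hne
      exact hxb (hroute.supp a x b hne).2
    · have e : (fun x b => ((∑ a, z' a x b : ℕ) : ℝ)) = fun x b => ∑ a, (z' a x b : ℝ) := by
        funext x b; push_cast; rfl
      rw [e]; exact b2

end Pool.Agent.Helper72.PL
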