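import Pool.Agent.Helper33.DP.Sheet

/-! Row FINAL of the sheet DP (MP_fcb106_co): induction on the width. -/

set_option autoImplicit false

namespace Pool.Agent.Helper72.PL

open Finset Pool.Agent.Helper33.DP
open Pool.Agent.Helper3.DW (IsCompPoset IsAnti HasWidth IsCompChain CoveredBy Suffices)

/-! ### computable predicates -/

theorem cp_and {α : Type} [Primcodable α] {p q : α → Prop} (hp : ComputablePred p)
    (hq : ComputablePred q) : ComputablePred (fun a => p a ∧ q a) := by
  obtain ⟨f, hf, rfl⟩ := ComputablePred.computable_iff.1 hp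
  obtain ⟨g, hg, rfl⟩ := ComputablePred.computable_iff.1 hq
  refine ComputablePred.computable_iff.2 ⟨fun a => f a && g a, Primrec.and.to_comp.comp hf hg, ?_⟩
  funext a
  simp

theorem cp_comp {α β : Type} [Primcodable α] [Primcodable β] {p : β → Prop} {f : α → β}
    (hp : ComputablePred p) (hf : Computable f) : ComputablePred (fun a => p (f a)) := by
  obtain ⟨g, hg, rfl⟩ := ComputablePred.computable_iff.1 hp
  exact ComputablePred.computable_iff.2 ⟨fun a => g (f a), hg.comp hf, rfl⟩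

theorem cp_false {α : Type} [Primcodable α] : ComputablePred (fun _ : α => False) :=
  ComputablePred.computable_iff.2 ⟨fun _ => false, Computable.const false, by funext a; simp⟩

/-! ### coverings -/

variable {A B P : Set ℕ} {le : ℕ → ℕ → Prop} {k n w : ℕ}

/-- the union of two coverings -/
theorem cov_union (hA : Cov A le k) (hB : Cov B le n) : Cov (A ∪ B) le (k + n) := by
  obtain ⟨C, hC, hAC⟩ := hA
  obtain ⟨D, hD, hBD⟩ := hB
  refine ⟨Fin.append C D, fun i => ?_, ?_⟩
  · refine Fin.addCases (fun i => ?_) (fun i => ?_) i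
    · rw [Fin.append_left]
      exact ⟨(hC i).1.trans Set.subset_union_left, (hC i).2⟩
    · rw [Fin.append_right]
      exact ⟨(hD i).1.trans Set.subset_union_right, (hD i).2⟩
  · rintro a (ha | ha)
    · obtain ⟨i, hi⟩ := Set.mem_iUnion.1 (hAC ha)
      refine Set.mem_iUnion.2 ⟨Fin.castAdd n i, ?_⟩
      rw [Fin.append_left]
      exact hi
    · obtain ⟨i, hi⟩ := Set.mem_iUnion.1 (hBD ha)
      refine Set.mem_iUnion.2 ⟨Fin.natAdd k i, ?_⟩
      rw [Fin.append_right]
      exact hi

/-- more chains -/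
theorem covered_of_cov (h : Cov P le k) (hkn : k ≤ n) : CoveredBy P le n := by
  obtain ⟨C, hC, hPC⟩ := h
  refine ⟨fun i => if h : i.1 < k then C ⟨i.1, h⟩ else ∅, fun i => ?_, fun a ha => ?_⟩
  · by_cases hi : i.1 < k
    · simp only [hi, dif_pos]
      exact ⟨(hC _).1, (hC _).2.1, (hC _).2.2⟩
    · simp only [hi, dif_neg, not_false_eq_true]
      refine ⟨Set.empty_subset _, ?_, fun a ha => ha.elim⟩
      exact (cp_false (α := ℕ)).of_eq fun a => Iff.rfl
  · obtain ⟨i, hi⟩ := Set.mem_iUnion.1 (hPC ha)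
    refine Set.mem_iUnion.2 ⟨⟨i.1, lt_of_lt_of_le i.2 hkn⟩, ?_⟩
    simp only [i.2, dif_pos]
    exact hi

/-! ### the induction -/

/-- The suborder on `B`. -/
def res (le : ℕ → ℕ → Prop) (B : Set ℕ) (a b : ℕ) : Prop := le a b ∧ a ∈ B ∧ b ∈ B

theorem res_poset (h : IsCompPoset P le) (hBP : B ⊆ P)
    (hB : ComputablePred (fun n : ℕ => n ∈ B)) : IsCompPoset B (res le B) where
  mem := hB
  rel := cp_and h.rel (cp_and (cp_comp hB Computable.fst) (cp_comp hB Computable.snd))
  sub := fun _ _ h' => h'.2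
  refl := fun a ha => ⟨h.refl a (hBP ha), ha, ha⟩
  trans := fun a b c h1 h2 => ⟨h.trans a b c h1.1 h2.1, h1.2.1, h2.2.2⟩
  antisymm := fun a b h1 h2 => h.antisymm a b h1.1 h2.1

theorem res_width (h : WLe B le w) : WLe B (res le B) w := fun s hs ha =>
  h s hs fun a has b hbs hab hle => ha a has b hbs hab ⟨hle, hs a has, hs b hbs⟩

theorem cov_res (h : Cov B (res le B) k) : Cov B le k := by
  obtain ⟨C, hC, hBC⟩ := h
  refine ⟨C, fun i => ⟨(hC i).1, (hC i).2.1, fun a ha b hb => ?_⟩, hBC⟩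
  exact ((hC i).2.2 a ha b hb).imp (fun h => h.1) fun h => h.1

/-- The induction on the width. -/
theorem cov_sum (hSPLIT : ST_SPLIT) (hPARTB : ST_PARTB) (g : ℕ → ℕ)
    (hS : ∀ w : ℕ, 1 ≤ w → ∃ Good, Strat w (g w) Good) :
    ∀ (w : ℕ) (P : Set ℕ) (le : ℕ → ℕ → Prop), IsCompPoset P le → WLe P le w →
      Cov P le (∑ v ∈ range w, g (v + 1)) := by
  intro w
  induction w with
  | zero =>
    intro P le hP hw
    have hE : ∀ a, a ∉ P := by
      intro a ha
      have := hw {a} (by simpa using ha) (by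
        intro x hx y hy hxy
        rw [mem_singleton] at hx hy
        exact (hxy (hx.trans hy.symm)).elim)
      simp at this
    refine ⟨fun _ => ∅, fun i => ⟨Set.empty_subset _, ?_, fun a ha => ha.elim⟩,
      fun a ha => (hE a ha).elim⟩
    exact (cp_false (α := ℕ)).of_eq fun a => Iff.rfl
  | succ w ih =>
    intro P le hP hw
    obtain ⟨B, hBP, hBc, hBw, hX⟩ := hSPLIT P le w hP hw
    have h1 : Cov B le (∑ v ∈ range w, g (v + 1)) :=
      cov_res (ih B (res le B) (res_poset hP hBP hBc) (res_width hBw))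
    obtain ⟨Good, hGood⟩ := hS (w + 1) (Nat.succ_pos w)
    have h2 : Cov {n | n ∈ P ∧ n ∉ B} le (g (w + 1)) :=
      hPARTB (w + 1) (g (w + 1)) Good P {n | n ∈ P ∧ n ∉ B} le (Nat.succ_pos w) hGood hP hw
        (fun n hn => hn.1) (cp_and hP.mem hBc.not) fun n hn => hX n hn.1 hn.2
    have h3 := cov_union h1 h2
    have e : B ∪ {n | n ∈ P ∧ n ∉ B} = P := by
      ext n
      constructor
      · rintro (h | h)
        · exact hBP h
        · exact h.1
      · intro h
        by_cases hn : n ∈ B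
        · exact Or.inl hn
        · exact Or.inr ⟨h, hn⟩
    rw [e] at h3
    rw [sum_range_succ]
    exact h3

/-- Coverings by computable chains from strategies. -/
theorem suffices_of (hSPLIT : ST_SPLIT) (hPARTB : ST_PARTB) (g : ℕ → ℕ)
    (hS : ∀ w : ℕ, 1 ≤ w → ∃ Good, Strat w (g w) Good) (w k : ℕ)
    (hk : ∑ v ∈ range w, g (v + 1) ≤ k) : Suffices w k := fun P le hP hw =>
  covered_of_cov (cov_sum hSPLIT hPARTB g hS w P le hP hw.bound) hk

/-- Sums of powers. -/
theorem sum_pow_le (c e w : ℕ) : ∑ v ∈ range w, c * (v + 1) ^ e ≤ c * w ^ (e + 1) := by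
  calc ∑ v ∈ range w, c * (v + 1) ^ e ≤ ∑ v ∈ range w, c * w ^ e :=
        sum_le_sum fun v hv => Nat.mul_le_mul le_rfl
          (Nat.pow_le_pow_left (Nat.succ_le_of_lt (mem_range.1 hv)) e)
    _ = c * w ^ (e + 1) := by
        rw [sum_const, card_range, smul_eq_mul]
        ring

/-- FINAL -/
theorem FINAL (hS : ST_S) (hSPLIT : ST_SPLIT) (hPARTB : ST_PARTB) : ST_FINAL := fun w _ =>
  suffices_of hSPLIT hPARTB (fun w => 8192 * w ^ 14) hS w _ (sum_pow_le 8192 14 w)

end Pool.Agent.Helper72.PL
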