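import Pool.Agent.Helper33.DP3.Sheet
import Pool.Agent.Helper72.PL.FINAL

/-! Row FINAL3 of the sheet DP3 (MP_fcb106_co): induction on the width. -/

set_option autoImplicit false

namespace Pool.Agent.Helper72.PL

open Finset Pool.Agent.Helper33.DP Pool.Agent.Helper33.DP3

/-- FINAL3 -/
theorem FINAL3 (hS : ST_S3) (hSPLIT : ST_SPLIT) (hPARTB : ST_PARTB) : ST_FINAL3 := fun w _ =>
  suffices_of hSPLIT hPARTB (fun w => 3 * w ^ 6) hS w _ (sum_pow_le 3 6 w)

end Pool.Agent.Helper72.PL
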