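import Pool.Agent.Helper33.PL.Order
import Pool.Agent.Helper33.PL.Base
import Pool.Agent.Helper33.PL.S3
import Pool.Agent.Helper2.PL.PEX
import Pool.Agent.Helper95.PL.BB
import Pool.Agent.Helper95.PL.LR
import Pool.Agent.Helper59.PL.RND
import Pool.Agent.Helper59.PL.B3
import Pool.Agent.Helper6.PL.C3
import Pool.Agent.Helper31.PL.CR3
import Pool.Agent.Helper75.PL.GB3
import Pool.Agent.Helper78.PL.GT3
import Pool.Agent.Helper72.PL.A3
import Pool.Agent.Helper72.PL.FINAL3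

/-! Assembly of the rows of the sheets DP and DP3 (MP_fcb106_co). -/

set_option autoImplicit false

namespace Pool.Agent.Helper72.PL

open Finset Pool.Agent.Helper33.DP Pool.Agent.Helper33.DP3
open Pool.Agent.Helper33.PL (partB split t1 str clm bgp bdr)

theorem all_GB3 : ST_GB3 := Pool.Agent.Helper75.PL.GB3 bdr Pool.Agent.Helper95.PL.BB3

theorem all_A3 : ST_A3 := A3 t1 Pool.Agent.Helper59.PL.RND3 bdr all_GB3

theorem all_PEX3 : ST_PEX3 :=
  Pool.Agent.Helper2.PL.PEX3 Pool.Agent.Helper26.PL.ML Pool.Agent.Helper85.PL.DS3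
    Pool.Agent.Helper85.PL.DS4

theorem all_B3 : ST_B3 :=
  Pool.Agent.Helper59.PL.B3 str Pool.Agent.Helper95.PL.LR Pool.Agent.Helper95.PL.BB1
    Pool.Agent.Helper95.PL.BB2 all_PEX3 clm bgp bdr all_GB3

theorem all_C3 : ST_C3 :=
  Pool.Agent.Helper6.PL.C3 Pool.Agent.Helper59.PL.DS1 str Pool.Agent.Helper95.PL.LR
    Pool.Agent.Helper31.PL.CR3 Pool.Agent.Helper95.PL.BB2

theorem all_S3 : ST_S3 :=
  Pool.Agent.Helper33.PL.S3 str all_GB3 all_A3 all_B3 (Pool.Agent.Helper78.PL.BT3 all_B3) all_C3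
    Pool.Agent.Helper75.PL.START3

/-- The polynomial upper bound. -/
theorem all_FINAL3 : ST_FINAL3 := FINAL3 all_S3 split partB

end Pool.Agent.Helper72.PL
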